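import Pool.Agent.helper78.HR.Defs

/-!
HR project (MP_58257a_co, S08871), row OP: normal form of a packing.
-/

set_option autoImplicit false

namespace Pool.Agent.helper78.HR

open Finset

/-- Exchange identity for the sums. -/
theorem hrOP_sum {T : Type*} [DecidableEq T] (A : Finset T) (w w2 : T → ℕ) (f g h1 h2 : T)
    (hf : f ∈ A) (hg : g ∈ A) (hh1 : h1 ∈ A) (hh2 : h2 ∈ A)
    (he : ∀ t, w2 t + (if t = f then 1 else 0) + (if t = g then 1 else 0) =
      w t + (if t = h1 then 1 else 0) + (if t = h2 then 1 else 0)) (p : T → ℕ) :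
    ∑ t ∈ A, w2 t * p t + p f + p g = ∑ t ∈ A, w t * p t + p h1 + p h2 := by
  have hs : ∀ u ∈ A, ∑ t ∈ A, (if t = u then 1 else 0) * p t = p u := by
    intro u hu
    simp [ite_mul, Finset.sum_ite_eq', hu]
  have h := Finset.sum_congr (rfl : A = A) (fun t _ => congrArg (fun n => n * p t) (he t))
  simp only [add_mul, Finset.sum_add_distrib] at h
  rw [hs f hf, hs g hg, hs h1 hh1, hs h2 hh2] at h
  exact h

/-- row OP (abstract). Normal form. -/
theorem normal_form {T Z : Type*} [DecidableEq T] (A : Finset T) (R : T → Z → Prop)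
    [∀ f z, Decidable (R f z)] (a : T → ℕ) (M : T → T → Prop)
    (hM : ∀ f ∈ A, ∀ g ∈ A, M f g → f ≠ g ∧ ∃ h1 ∈ A, ∃ h2 ∈ A,
      (∀ z, (if R h1 z then 1 else 0) + (if R h2 z then 1 else 0) ≤
        (if R f z then 1 else 0) + (if R g z then (1 : ℕ) else 0)) ∧ a h1 + a h2 < a f + a g)
    (k : ℕ) (w : T → ℕ) (hw : ∀ z, ∑ f ∈ A.filter (fun f => R f z), w f ≤ k) :
    ∃ w' : T → ℕ, (∀ z, ∑ f ∈ A.filter (fun f => R f z), w' f ≤ k) ∧
      ∑ f ∈ A, w' f = ∑ f ∈ A, w f ∧
      ∀ f ∈ A, ∀ g ∈ A, 0 < w' f → 0 < w' g → ¬ M f g := by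
  have main : ∀ n : ℕ, ∀ w : T → ℕ, ∑ f ∈ A, w f * a f = n →
      (∀ z, ∑ f ∈ A.filter (fun f => R f z), w f ≤ k) →
      ∃ w' : T → ℕ, (∀ z, ∑ f ∈ A.filter (fun f => R f z), w' f ≤ k) ∧
        ∑ f ∈ A, w' f = ∑ f ∈ A, w f ∧
        ∀ f ∈ A, ∀ g ∈ A, 0 < w' f → 0 < w' g → ¬ M f g := by
    intro n
    induction n using Nat.strong_induction_on with
    | _ n ih =>
      intro w hn hw
      by_cases hdone : ∀ f ∈ A, ∀ g ∈ A, 0 < w f → 0 < w g → ¬ M f g
      · exact ⟨w, hw, rfl, hdone⟩
      · push Not at hdone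
        obtain ⟨f, hf, g, hg, hwf, hwg, hfg⟩ := hdone
        obtain ⟨hne, h1, hh1, h2, hh2, hload, har⟩ := hM f hf g hg hfg
        let w2 : T → ℕ := fun t => w t - (if t = f then 1 else 0) - (if t = g then 1 else 0) +
          (if t = h1 then 1 else 0) + (if t = h2 then 1 else 0)
        have he : ∀ t, w2 t + (if t = f then 1 else 0) + (if t = g then 1 else 0) =
            w t + (if t = h1 then 1 else 0) + (if t = h2 then 1 else 0) := by
          intro t
          have hle : (if t = f then 1 else 0) + (if t = g then 1 else 0) ≤ w t := by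
            by_cases h1 : t = f
            · subst h1
              rw [if_pos rfl, if_neg hne]
              omega
            · rw [if_neg h1]
              by_cases h2 : t = g
              · subst h2
                rw [if_pos rfl]
                omega
              · rw [if_neg h2]
                omega
          simp only [w2]
          omega
        have hsum := hrOP_sum A w w2 f g h1 h2 hf hg hh1 hh2 he
        have hr : ∀ (v : T → ℕ) (z : Z), ∑ t ∈ A.filter (fun t => R t z), v t =
            ∑ t ∈ A, v t * (if R t z then 1 else 0) := by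
          intro v z
          rw [Finset.sum_filter]
          exact Finset.sum_congr rfl (fun t _ => by split_ifs <;> simp)
        have hw2 : ∀ z, ∑ t ∈ A.filter (fun t => R t z), w2 t ≤ k := by
          intro z
          have h3 := hsum (fun t => if R t z then 1 else 0)
          have h4 := hload z
          have h5 := hw z
          rw [hr] at h5 ⊢
          omega
        have htot : ∑ t ∈ A, w2 t = ∑ t ∈ A, w t := by
          have h3 := hsum (fun _ => 1)
          simp only [mul_one] at h3
          omega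
        have hlt : ∑ t ∈ A, w2 t * a t < n := by
          have h3 := hsum a
          omega
        obtain ⟨w', h6, h7, h8⟩ := ih _ hlt w2 rfl hw2
        exact ⟨w', h6, h7.trans htot, h8⟩
  exact main _ w rfl hw

end Pool.Agent.helper78.HR
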